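import Pool.Agent.Y517.NT.Geo

/-!
# NT-SPAN: smooth functions span the cotangent spaces and separate points

The computation of the differentials is that of Pool.Agent.Y363.SY.Local.
-/

set_option autoImplicit false

open Set Filter Topology MeasureTheory
open scoped Manifold ContDiff

noncomputable section

namespace Pool.Agent.Y655.NT

open Pool.Agent.Y501.SY Pool.Agent.Y517.NT

lemma local_span (d : ℕ) (X : Type) [TopologicalSpace X] [ChartedSpace (E d) X]
    [IsManifold (𝓡 d) ∞ X] [T2Space X] (z : X) : ∃ g : Fin d → X → ℝ,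
    (∀ j, SmoothFun (d := d) (g j)) ∧ ∀ᶠ y in 𝓝 z, ∀ v : TangentSpace (𝓡 d) y, v ≠ 0 →
      ∃ j, dd (g j) y v ≠ 0 := by
  let c := chartAt (E d) z
  have hz : z ∈ c.source := mem_chart_source (E d) z
  have hcd : c.MDifferentiable (𝓡 d) (𝓡 d) := mdifferentiable_chart (I := 𝓡 d) z
  obtain ⟨b⟩ : Nonempty (SmoothBumpFunction (𝓡 d) z) := inferInstance
  let F : X → E d := fun x => b x • c x
  have hF : ContMDiff (𝓡 d) 𝓘(ℝ, E d) ∞ F := b.contMDiff_smul (contMDiffOn_chart (I := 𝓡 d))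
  let g : Fin d → X → ℝ := fun j x => F x j
  have hg : ∀ j, SmoothFun (d := d) (g j) := by
    intro j
    exact ((EuclideanSpace.proj (𝕜 := ℝ) j : E d →L[ℝ] ℝ).contDiff.contMDiff).comp hF
  refine ⟨g, hg, ?_⟩
  filter_upwards [c.open_source.mem_nhds hz, b.eventuallyEq_one.eventually_nhds] with y hy hby v hv
  have hFc : F =ᶠ[𝓝 y] c := by
    filter_upwards [hby] with x hx
    change b x • c x = c x
    rw [hx]
    exact one_smul ℝ (c x)
  let A : TangentSpace (𝓡 d) y ≃L[ℝ] E d := hcd.mfderiv hy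
  have hcdy : MDifferentiableAt (𝓡 d) 𝓘(ℝ, E d) c y := hcd.mdifferentiableAt hy
  have hdg : ∀ j (v : TangentSpace (𝓡 d) y), dd (g j) y v = (A v) j := by
    intro j v
    have e1 : g j =ᶠ[𝓝 y] (EuclideanSpace.proj (𝕜 := ℝ) j : E d →L[ℝ] ℝ) ∘ c := by
      filter_upwards [hFc] with x hx
      change F x j = c x j
      rw [hx]
    unfold dd
    rw [e1.mfderiv_eq, mfderiv_comp y
      ((EuclideanSpace.proj (𝕜 := ℝ) j : E d →L[ℝ] ℝ).contDiff.contMDiff.mdifferentiableAt
        (n := 1) one_ne_zero) hcdy,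
      mfderiv_eq_fderiv, ContinuousLinearMap.fderiv]
    rfl
  by_contra hcon
  push Not at hcon
  apply hv
  have h1 : A v = 0 := by
    ext j
    rw [← hdg j v]
    exact hcon j
  exact A.injective (h1.trans (map_zero A).symm)

theorem t_SPAN : S_SPAN := by
  intro d X _ _ _ _ _
  constructor
  · choose g hg hspan using local_span d X
    obtain ⟨t, ht⟩ := CompactSpace.elim_nhds_subcover
      (fun z => {y | ∀ v : TangentSpace (𝓡 d) y, v ≠ 0 → ∃ j, dd (g z j) y v ≠ 0})
      (fun z => hspan z)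
    let e := Fintype.equivFin (t × Fin d)
    refine ⟨Fintype.card (t × Fin d), fun k => g (e.symm k).1 (e.symm k).2,
      fun k => hg _ _, ?_⟩
    intro x v hv
    have hx : x ∈ ⋃ z ∈ t, {y | ∀ v : TangentSpace (𝓡 d) y, v ≠ 0 →
        ∃ j, dd (g z j) y v ≠ 0} := by
      rw [ht]
      exact mem_univ x
    rw [mem_iUnion₂] at hx
    obtain ⟨z, hz, hx⟩ := hx
    obtain ⟨j, hj⟩ := hx v hv
    refine ⟨e (⟨z, hz⟩, j), ?_⟩
    simp only [Equiv.symm_apply_apply]
    exact hj
  · intro x y hxy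
    obtain ⟨f, hf⟩ := (SmoothBumpFunction.nhds_basis_support (I := 𝓡 d) (c := x)
      (s := {y}ᶜ) (isOpen_compl_singleton.mem_nhds hxy)).ex_mem
    refine ⟨f, f.contMDiff, ?_⟩
    have h1 : f x = 1 := f.eq_one
    have h2 : f y = 0 := by
      by_contra h
      exact hf (subset_tsupport _ (Function.mem_support.2 h)) rfl
    rw [h1, h2]
    exact one_ne_zero

end Pool.Agent.Y655.NT
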